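import Pool.Agent.V1190.DK.Log

set_option maxRecDepth 100000

namespace Pool.Agent.V1190.DK

open Equiv Complex Finset

abbrev P := Equiv.Perm (Fin 4)

/-- The parity contradiction: no integer valued function on `S_4` has the parity of the sign
and vanishing mixed differences along pairs of disjoint transpositions. -/
theorem no_G (G : P → ℤ) (hpar : ∀ π, (G π : ZMod 2) = if Perm.sign π = 1 then 0 else 1)
    (h : ∀ (ρ π : P), G π - G (π * swap (ρ 0) (ρ 1)) - G (π * swap (ρ 2) (ρ 3))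
      + G (π * swap (ρ 0) (ρ 1) * swap (ρ 2) (ρ 3)) = 0) : False := by
  let s : P → ℤ := fun π => (Perm.sign π : ℤ) * G π
  have key : ∀ ρ : P, ρ 0 = 0 → ∑ π : P, (if π 0 ≠ 3 ∧ π (ρ 1) ≠ 3 then s π else 0) = 0 := by
    intro ρ hρ
    set f : P → ℤ := fun π => if π 0 ≠ 3 ∧ π (ρ 1) ≠ 3 then s π else 0 with hf
    set t1 : P := swap (ρ 0) (ρ 1) with ht1
    set t2 : P := swap (ρ 2) (ρ 3) with ht2
    have h01 : ρ 0 ≠ ρ 1 := ρ.injective.ne (by decide)
    have h23 : ρ 2 ≠ ρ 3 := ρ.injective.ne (by decide)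
    have h02 : ρ 0 ≠ ρ 2 := ρ.injective.ne (by decide)
    have h03 : ρ 0 ≠ ρ 3 := ρ.injective.ne (by decide)
    have h12 : ρ 1 ≠ ρ 2 := ρ.injective.ne (by decide)
    have h13 : ρ 1 ≠ ρ 3 := ρ.injective.ne (by decide)
    have e1 : ∑ π, f (π * t1) = ∑ π, f π := Equiv.sum_comp (Equiv.mulRight t1) f
    have e2 : ∑ π, f (π * t2) = ∑ π, f π := Equiv.sum_comp (Equiv.mulRight t2) f
    have e3 : ∑ π, f (π * t1 * t2) = ∑ π, f π := by
      have := Equiv.sum_comp (Equiv.mulRight (t1 * t2)) f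
      simpa [mul_assoc] using this
    have s1 : Perm.sign t1 = -1 := Perm.sign_swap h01
    have s2 : Perm.sign t2 = -1 := Perm.sign_swap h23
    have a1 : t1 0 = ρ 1 := by
      calc t1 0 = t1 (ρ 0) := by rw [hρ]
        _ = ρ 1 := swap_apply_left _ _
    have a2 : t1 (ρ 1) = 0 := by rw [ht1]; rw [swap_apply_right]; exact hρ
    have a3 : t2 0 = 0 := by
      calc t2 0 = t2 (ρ 0) := by rw [hρ]
        _ = ρ 0 := swap_apply_of_ne_of_ne h02 h03
        _ = 0 := hρ
    have a4 : t2 (ρ 1) = ρ 1 := by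
      rw [ht2]; exact swap_apply_of_ne_of_ne h12 h13
    have hsum : ∑ π, (f π + f (π * t1) + f (π * t2) + f (π * t1 * t2)) = 0 := by
      apply Finset.sum_eq_zero
      intro π _
      have := h ρ π
      rw [← ht1, ← ht2] at this
      simp only [hf, s, Perm.mul_apply, a1, a2, a3, a4, Perm.sign_mul, s1, s2]
      by_cases c : π 0 ≠ 3 ∧ π (ρ 1) ≠ 3
      · rw [if_pos c, if_pos ⟨c.2, c.1⟩, if_pos c, if_pos ⟨c.2, c.1⟩]
        push_cast
        linear_combination (Perm.sign π : ℤ) * this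
      · have c' : ¬ (π (ρ 1) ≠ 3 ∧ π 0 ≠ 3) := fun q => c ⟨q.2, q.1⟩
        rw [if_neg c, if_neg c', if_neg c, if_neg c']
        simp
    rw [Finset.sum_add_distrib, Finset.sum_add_distrib, Finset.sum_add_distrib, e1, e2, e3] at hsum
    have : ∑ π, f π = 0 := by linarith
    exact this
  have k1 := key 1 rfl
  have k2 := key (swap 1 2) (by decide)
  have k3 := key (swap 1 3) (by decide)
  have q1 : (1 : P) 1 = 1 := rfl
  have q2 : (swap 1 2 : P) 1 = 2 := by decide
  have q3 : (swap 1 3 : P) 1 = 3 := by decide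
  rw [q1] at k1
  rw [q2] at k2
  rw [q3] at k3
  have hcount : ∀ π : P, (π 0 ≠ 3 → ((if π 1 ≠ 3 then (1 : ℤ) else 0) +
      (if π 2 ≠ 3 then 1 else 0) + (if π 3 ≠ 3 then 1 else 0) = 2)) := by decide
  have hΩ : ∑ π : P, (if π 0 ≠ 3 then s π else 0) = 0 := by
    have : 2 * ∑ π : P, (if π 0 ≠ 3 then s π else 0) = 0 := by
      rw [Finset.mul_sum]
      have h3 : ∑ π : P, ((if π 0 ≠ 3 ∧ π 1 ≠ 3 then s π else 0) +
          (if π 0 ≠ 3 ∧ π 2 ≠ 3 then s π else 0) + (if π 0 ≠ 3 ∧ π 3 ≠ 3 then s π else 0)) = 0 := by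
        rw [Finset.sum_add_distrib, Finset.sum_add_distrib, k1, k2, k3]; rfl
      refine Eq.trans ?_ h3
      apply Finset.sum_congr rfl
      intro π _
      by_cases c : π 0 ≠ 3
      · have := hcount π c
        simp only [c, ne_eq, not_false_eq_true, if_true, true_and]
        simp only [ne_eq] at this
        rw [← this]
        by_cases c1 : π 1 = 3 <;> by_cases c2 : π 2 = 3 <;> by_cases c3 : π 3 = 3 <;>
          simp [c1, c2, c3] <;> ring
      · simp [c]
    linarith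
  have hz : ((∑ π : P, (if π 0 ≠ 3 then s π else 0) : ℤ) : ZMod 2) = 0 := by
    rw [hΩ]; rfl
  rw [Int.cast_sum] at hz
  have hev : (∑ π : P, (if π 0 ≠ 3 then (if Perm.sign π = 1 then (0 : ZMod 2) else 1) else 0))
      = 1 := by decide
  have hcg : ∑ π : P, (((if π 0 ≠ 3 then s π else 0 : ℤ)) : ZMod 2)
      = ∑ π : P, (if π 0 ≠ 3 then (if Perm.sign π = 1 then (0 : ZMod 2) else 1) else 0) := by
    apply Finset.sum_congr rfl
    intro π _
    by_cases c : π 0 ≠ 3
    · rw [if_pos c, if_pos c]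
      simp only [s]
      rw [Int.cast_mul, hpar π]
      rcases Int.units_eq_one_or (Perm.sign π) with h | h
      · rw [h]; simp
      · rw [h]
        have : ((-1 : ℤˣ) : ℤ) = -1 := rfl
        rw [this]
        decide
    · rw [if_neg c, if_neg c]; rfl
  rw [hcg, hev] at hz
  exact absurd hz (by decide)

end Pool.Agent.V1190.DK
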