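import Mathlib

namespace Pool.Agent.V1190.DK

open scoped ZeroAtInfty

/-- A classical multivariable dynamical system on `X` with `n` maps: `n` proper continuous self-maps
of `X` (`CocompactMap X X` is the type of continuous maps `f` with `f → ∞` at infinity, which for a
locally compact Hausdorff space are exactly the proper continuous maps). -/
structure MSystem (n : ℕ) (X : Type*) [TopologicalSpace X] where
  /-- the maps `σ_1, …, σ_n` -/
  map : Fin n → CocompactMap X X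

variable {n : ℕ} {X Y : Type*} [TopologicalSpace X] [TopologicalSpace Y]

/-- The `C₀(X)`-valued inner product `⟨ξ, η⟩ = ∑ ξ_i^* η_i` on the column vectors `C₀(X)^n`. -/
noncomputable def rinner (ξ η : Fin n → C₀(X, ℂ)) : C₀(X, ℂ) := ∑ i, star (ξ i) * η i

/-- The left action `φ(a)(ξ_i)_i = ((a ∘ σ_i) ξ_i)_i` of `C₀(X)` on `C₀(X)^n`. -/
noncomputable def MSystem.left (S : MSystem n X) (a : C₀(X, ℂ)) (ξ : Fin n → C₀(X, ℂ)) :
    Fin n → C₀(X, ℂ) := fun i => a.comp (S.map i) * ξ i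

/-- Unitary equivalence of the `C*`-correspondences of two classical systems: a `*`-isomorphism
`ρ : C₀(X) → C₀(Y)` and a surjective linear map `U : C₀(X)^n → C₀(Y)^n` with
`⟨U ξ, U η⟩ = ρ ⟨ξ, η⟩` and `U (φ(a) ξ) = φ(ρ a) U ξ`. -/
def UnitarilyEquivalent (S : MSystem n X) (T : MSystem n Y) : Prop :=
  ∃ (ρ : C₀(X, ℂ) ≃⋆ₐ[ℂ] C₀(Y, ℂ)) (U : (Fin n → C₀(X, ℂ)) →ₗ[ℂ] (Fin n → C₀(Y, ℂ))),
    Function.Surjective U ∧
    (∀ ξ η, rinner (U ξ) (U η) = ρ (rinner ξ η)) ∧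
    (∀ a ξ, U (S.left a ξ) = T.left (ρ a) (U ξ))

/-- Piecewise conjugacy of two classical systems: a homeomorphism `γ : X → Y` and an open cover
`{W_π : π ∈ S_n}` of `X` with `τ_i ∘ γ = γ ∘ σ_{π(i)}` on `W_π` for all `π` and `i`. -/
def PiecewiseConjugate (S : MSystem n X) (T : MSystem n Y) : Prop :=
  ∃ (γ : X ≃ₜ Y) (W : Equiv.Perm (Fin n) → Set X), (∀ π, IsOpen (W π)) ∧
    (⋃ π, W π) = Set.univ ∧
    ∀ π, ∀ x ∈ W π, ∀ i, T.map i (γ x) = γ (S.map (π i) x)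

end Pool.Agent.V1190.DK
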