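import Pool.Agent.V1190.DK.Defs

namespace Pool.Agent.V1190.DK

open scoped ZeroAtInfty Matrix
open WeakDual.CharacterSpace

variable {X Y : Type*} [TopologicalSpace X] [TopologicalSpace Y] [CompactSpace X] [CompactSpace Y]
  [T2Space X] [T2Space Y]

/-- the canonical element of `C₀(X)` given by a continuous function on a compact space -/
noncomputable def toC0 (f : C(X, ℂ)) : C₀(X, ℂ) :=
  ZeroAtInftyContinuousMap.ContinuousMap.liftZeroAtInfty f

@[simp] theorem toC0_apply (f : C(X, ℂ)) (x : X) : toC0 f x = f x := rfl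

theorem toC0_coe (f : C₀(X, ℂ)) : toC0 (f : C(X, ℂ)) = f := by
  ext x; rfl

theorem rho_one (ρ : C₀(X, ℂ) ≃⋆ₐ[ℂ] C₀(Y, ℂ)) : ρ (toC0 1) = toC0 1 := by
  have h : ρ (toC0 1) * toC0 1 = toC0 1 := by
    have e : ρ (ρ.symm (toC0 1)) = toC0 1 := ρ.apply_symm_apply _
    calc ρ (toC0 1) * toC0 1 = ρ (toC0 1) * ρ (ρ.symm (toC0 1)) := by rw [e]
      _ = ρ (toC0 1 * ρ.symm (toC0 1)) := (map_mul ρ _ _).symm
      _ = ρ (ρ.symm (toC0 1)) := by
          congr 1
          ext x
          simp
      _ = toC0 1 := e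
  ext y
  have := DFunLike.congr_fun h y
  simpa using this

/-- the character attached to a point -/
noncomputable def chr (ρ : C₀(X, ℂ) ≃⋆ₐ[ℂ] C₀(Y, ℂ)) (y : Y) : C(X, ℂ) →ₐ[ℂ] ℂ where
  toFun f := ρ (toC0 f) y
  map_one' := by rw [rho_one]; rfl
  map_mul' f g := by
    have : toC0 (f * g) = toC0 f * toC0 g := by ext x; rfl
    rw [this, map_mul]; rfl
  map_zero' := by
    have : toC0 (0 : C(X, ℂ)) = 0 := by ext x; rfl
    rw [this, map_zero]; rfl
  map_add' f g := by
    have : toC0 (f + g) = toC0 f + toC0 g := by ext x; rfl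
    rw [this, map_add]; rfl
  commutes' r := by
    have : toC0 (algebraMap ℂ C(X, ℂ) r) = r • toC0 1 := by
      ext x; simp
    rw [this, map_smul, rho_one]
    simp

theorem gelf (ρ : C₀(X, ℂ) ≃⋆ₐ[ℂ] C₀(Y, ℂ)) :
    ∃ κ : Y → X, Continuous κ ∧ ∀ (f : C₀(X, ℂ)) (y : Y), ρ f y = f (κ y) := by
  refine ⟨fun y => (homeoEval X ℂ).symm (equivAlgHom.symm (chr ρ y)), ?_, ?_⟩
  · refine (homeoEval X ℂ).symm.continuous.comp ?_
    refine Continuous.subtype_mk ?_ _
    apply WeakDual.continuous_of_continuous_eval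
    intro f
    exact (ρ (toC0 f)).continuous
  · intro f y
    have h : homeoEval X ℂ ((homeoEval X ℂ).symm (equivAlgHom.symm (chr ρ y)))
        = equivAlgHom.symm (chr ρ y) := (homeoEval X ℂ).apply_symm_apply _
    have h2 := DFunLike.congr_fun h (f : C(X, ℂ))
    have h3 : (homeoEval X ℂ ((homeoEval X ℂ).symm (equivAlgHom.symm (chr ρ y)))) (f : C(X, ℂ))
        = f ((homeoEval X ℂ).symm (equivAlgHom.symm (chr ρ y))) := rfl
    rw [h3] at h2
    rw [h2]
    have h4 : (equivAlgHom.symm (chr ρ y)) (f : C(X, ℂ)) = ρ (toC0 (f : C(X, ℂ))) y := rfl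
    rw [h4, toC0_coe]

theorem sep {x x' : X} (h : ∀ f : C₀(X, ℂ), f x = f x') : x = x' := by
  apply (continuousMapEval_bijective (X := X) (𝕜 := ℂ)).injective
  apply DFunLike.ext
  intro f
  exact h (toC0 f)

omit [CompactSpace X] [T2Space X] in
theorem sum_apply0 {n : ℕ} (s : Finset (Fin n)) (g : Fin n → C₀(X, ℂ)) (y : X) :
    (∑ i ∈ s, g i) y = ∑ i ∈ s, g i y := by
  classical
  induction s using Finset.induction_on with
  | empty => rfl
  | insert a s ha ih => rw [Finset.sum_insert ha, Finset.sum_insert ha, ← ih]; rfl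

/-- A unitary equivalence gives a homeomorphism and a continuous unitary-matrix-valued function with
the appropriate support. -/
theorem extract {n : ℕ} (S : MSystem n X) (T : MSystem n Y) (h : UnitarilyEquivalent S T) :
    ∃ (κ : Y ≃ₜ X) (u : Y → Matrix (Fin n) (Fin n) ℂ), (∀ i j, Continuous fun y => u y i j) ∧
      (∀ y, u y * (u y)ᴴ = 1) ∧ ∀ y i j, u y i j ≠ 0 → S.map j (κ y) = κ (T.map i y) := by
  obtain ⟨ρ, U, hsurj, hin, hleft⟩ := h
  obtain ⟨κ, hκc, hκ⟩ := gelf ρ
  obtain ⟨κ', hκc', hκ'⟩ := gelf ρ.symm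
  have k1 : ∀ y, κ' (κ y) = y := by
    intro y
    apply sep
    intro f
    rw [← hκ', ← hκ, ρ.apply_symm_apply]
  have k2 : ∀ x, κ (κ' x) = x := by
    intro x
    apply sep
    intro f
    rw [← hκ, ← hκ', ρ.symm_apply_apply]
  let K : Y ≃ₜ X :=
    { toFun := κ
      invFun := κ'
      left_inv := k1
      right_inv := k2
      continuous_toFun := hκc
      continuous_invFun := hκc' }
  have hK : ∀ y, K y = κ y := fun _ => rfl
  -- module property
  have hmod : ∀ (b : C₀(X, ℂ)) (ξ : Fin n → C₀(X, ℂ)),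
      U (fun i => b * ξ i) = fun i => ρ b * U ξ i := by
    intro b ξ
    have hz : ∀ η, rinner (U (fun i => b * ξ i) - fun i => ρ b * U ξ i) (U η) = 0 := by
      intro η
      have e1 : rinner (U (fun i => b * ξ i)) (U η) = star (ρ b) * rinner (U ξ) (U η) := by
        rw [hin, hin, ← map_star, ← map_mul]
        congr 1
        simp only [rinner, Finset.mul_sum]
        apply Finset.sum_congr rfl
        intro i _
        ext x
        simp
        ring
      have e2 : rinner (fun i => ρ b * U ξ i) (U η) = star (ρ b) * rinner (U ξ) (U η) := by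
        simp only [rinner, Finset.mul_sum]
        apply Finset.sum_congr rfl
        intro i _
        ext x
        simp
        ring
      have e3 : rinner (U (fun i => b * ξ i) - fun i => ρ b * U ξ i) (U η) =
          rinner (U (fun i => b * ξ i)) (U η) - rinner (fun i => ρ b * U ξ i) (U η) := by
        simp only [rinner]
        rw [← Finset.sum_sub_distrib]
        apply Finset.sum_congr rfl
        intro i _
        ext x
        simp
        ring
      rw [e3, e1, e2, sub_self]
    obtain ⟨η, hη⟩ := hsurj (U (fun i => b * ξ i) - fun i => ρ b * U ξ i)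
    have h0 := hz η
    rw [hη] at h0
    rw [← sub_eq_zero]
    set ζ := U (fun i => b * ξ i) - fun i => ρ b * U ξ i with hζ
    funext i
    ext y
    have h1 := DFunLike.congr_fun h0 y
    have h2 : (rinner ζ ζ) y = ∑ i, star (ζ i y) * ζ i y := by
      simp only [rinner]
      have : ∀ (s : Finset (Fin n)) (g : Fin n → C₀(Y, ℂ)), (∑ i ∈ s, g i) y = ∑ i ∈ s, g i y := by
        intro s g
        classical
        induction s using Finset.induction_on with
        | empty => rfl
        | insert a s ha ih => rw [Finset.sum_insert ha, Finset.sum_insert ha, ← ih]; rfl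
      rw [this]
      rfl
    rw [h2] at h1
    have h3 : ∑ i, ‖ζ i y‖ ^ 2 = 0 := by
      have : ((∑ i, ‖ζ i y‖ ^ 2 : ℝ) : ℂ) = 0 := by
        push_cast
        refine Eq.trans ?_ h1
        apply Finset.sum_congr rfl
        intro i _
        rw [← Complex.conj_mul']
        rfl
      exact_mod_cast this
    have h4 := (Finset.sum_eq_zero_iff_of_nonneg (fun i _ => by positivity)).1 h3 i
      (Finset.mem_univ i)
    have h5 : ‖ζ i y‖ = 0 := by simpa using h4
    simpa using h5
  let Eb : Fin n → (Fin n → C₀(X, ℂ)) := fun j => Pi.single j (toC0 1)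
  have hEb : ∀ j i x, Eb j i x = if i = j then 1 else 0 := by
    intro j i x
    simp only [Eb, Pi.single_apply]
    split_ifs <;> rfl
  refine ⟨K, fun y => Matrix.of fun i j => U (Eb j) i y, ?_, ?_, ?_⟩
  · intro i j
    exact (U (Eb j) i).continuous
  · intro y
    rw [← mul_eq_one_comm]
    ext j k
    have e1 := DFunLike.congr_fun (hin (Eb j) (Eb k)) y
    rw [hκ] at e1
    simp only [rinner, sum_apply0] at e1
    rw [Matrix.mul_apply]
    simp only [Matrix.conjTranspose_apply, Matrix.of_apply]
    refine Eq.trans e1 ?_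
    have e2 : ∀ i, (star (Eb j i) * Eb k i) (κ y) = if i = j then (if i = k then 1 else 0) else 0 := by
      intro i
      have : (star (Eb j i) * Eb k i) (κ y) = star (Eb j i (κ y)) * Eb k i (κ y) := rfl
      rw [this, hEb, hEb]
      split_ifs <;> simp
    simp only [e2]
    rw [Finset.sum_ite_eq' Finset.univ j]
    simp [Matrix.one_apply]
  · intro y i j hne
    apply sep
    intro a
    have e1 := DFunLike.congr_fun (congrFun (hleft a (Eb j)) i) y
    have e2 : S.left a (Eb j) = fun i' => (a.comp (S.map j)) * Eb j i' := by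
      funext i'
      simp only [MSystem.left]
      by_cases hij : i' = j
      · rw [hij]
      · have : Eb j i' = 0 := by simp [Eb, Pi.single_apply, hij]
        rw [this, mul_zero, mul_zero]
    rw [e2, hmod] at e1
    have e3 : (ρ (a.comp (S.map j)) * U (Eb j) i) y = a (S.map j (κ y)) * U (Eb j) i y := by
      have : (ρ (a.comp (S.map j)) * U (Eb j) i) y = ρ (a.comp (S.map j)) y * U (Eb j) i y := rfl
      rw [this, hκ]; rfl
    have e4 : (T.left (ρ a) (U (Eb j)) i) y = a (κ (T.map i y)) * U (Eb j) i y := by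
      have : (T.left (ρ a) (U (Eb j)) i) y = ρ a (T.map i y) * U (Eb j) i y := rfl
      rw [this, hκ]
    rw [e4] at e1
    have e5 := e3.symm.trans e1
    exact mul_right_cancel₀ hne e5

end Pool.Agent.V1190.DK
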