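import Mathlib

namespace Pool.Agent.V1190.DK

open Complex

variable {E : Type*} [NormedAddCommGroup E] [NormedSpace ℝ E]

theorem exists_log {S : Set E} (hS : IsCompact S) (hc : Convex ℝ S) (hne : S.Nonempty)
    {f : E → ℂ} (hf : ContinuousOn f S) (h0 : ∀ x ∈ S, f x ≠ 0) :
    ∃ g : E → ℂ, ContinuousOn g S ∧ ∀ x ∈ S, exp (g x) = f x := by
  obtain ⟨x0, hx0⟩ := hne
  obtain ⟨xm, hxm, hmin⟩ := hS.exists_isMinOn ⟨x0, hx0⟩ hf.norm
  have hδ : 0 < ‖f xm‖ := norm_pos_iff.2 (h0 xm hxm)
  have hmin' : ∀ x ∈ S, ‖f xm‖ ≤ ‖f x‖ := fun x hx => hmin hx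
  have huc := hS.uniformContinuousOn_of_continuous hf
  rw [Metric.uniformContinuousOn_iff] at huc
  obtain ⟨ε, hε, huc⟩ := huc ‖f xm‖ hδ
  obtain ⟨R, hR⟩ := hS.isBounded.subset_closedBall x0
  obtain ⟨N, hN⟩ := exists_nat_gt (R / ε)
  have hR0 : 0 ≤ R := by
    have := hR hx0
    simpa using this
  have hNpos : 0 < N := by
    rcases Nat.eq_zero_or_pos N with h | h
    · rw [h] at hN
      have : (0 : ℝ) ≤ R / ε := by positivity
      simp at hN; linarith
    · exact h
  have hNr : (0 : ℝ) < N := by exact_mod_cast hNpos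
  set p : ℕ → E → E := fun k x => x0 + ((k : ℝ) / N) • (x - x0) with hp
  have hpS : ∀ k ≤ N, ∀ x ∈ S, p k x ∈ S := by
    intro k hk x hx
    have hk' : (k : ℝ) / N ≤ 1 := by
      rw [div_le_one hNr]; exact_mod_cast hk
    have hk0 : 0 ≤ (k : ℝ) / N := by positivity
    have := hc.add_smul_sub_mem hx0 hx ⟨hk0, hk'⟩
    simpa [hp] using this
  have hp0 : ∀ x, p 0 x = x0 := by intro x; simp [hp]
  have hpN : ∀ x, p N x = x := by
    intro x; simp only [hp]; rw [div_self (ne_of_gt hNr)]; simp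
  have hpc : ∀ k, Continuous (p k) := by
    intro k; simp only [hp]; fun_prop
  have hd : ∀ k, ∀ x ∈ S, dist (p (k + 1) x) (p k x) < ε := by
    intro k x hx
    have : p (k + 1) x - p k x = ((1 : ℝ) / N) • (x - x0) := by
      simp only [hp]
      rw [add_sub_add_left_eq_sub, ← sub_smul]
      congr 1
      push_cast
      ring
    rw [dist_eq_norm, this, norm_smul]
    have h1 : ‖x - x0‖ ≤ R := by
      have := hR hx
      rwa [Metric.mem_closedBall, dist_eq_norm] at this
    have h2 : ‖(1 : ℝ) / N‖ = 1 / N := by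
      rw [Real.norm_of_nonneg]; positivity
    rw [h2]
    rw [div_lt_iff₀ hε] at hN
    calc 1 / (N : ℝ) * ‖x - x0‖ ≤ 1 / N * R := by gcongr
      _ < ε := by
        rw [one_div, inv_mul_lt_iff₀ hNr]; exact hN
  have hsl : ∀ k < N, ∀ x ∈ S, f (p (k + 1) x) / f (p k x) ∈ slitPlane := by
    intro k hk x hx
    have hm1 := hpS (k + 1) hk x hx
    have hm0 := hpS k hk.le x hx
    have hne := h0 _ hm0
    have hlt : dist (f (p (k + 1) x)) (f (p k x)) < ‖f xm‖ := huc _ hm1 _ hm0 (hd k x hx)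
    have : f (p (k + 1) x) / f (p k x) = 1 + (f (p (k + 1) x) - f (p k x)) / f (p k x) := by
      field_simp; ring
    rw [this]
    apply mem_slitPlane_of_norm_lt_one
    rw [norm_div, div_lt_one (norm_pos_iff.2 hne), ← dist_eq_norm]
    exact lt_of_lt_of_le hlt (hmin' _ hm0)
  refine ⟨fun x => log (f x0) + ∑ k ∈ Finset.range N, log (f (p (k + 1) x) / f (p k x)), ?_, ?_⟩
  · refine continuousOn_const.add ?_
    refine continuousOn_finsetSum _ ?_
    intro k hk
    have hk := Finset.mem_range.1 hk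
    refine ContinuousOn.clog ?_ (fun x hx => hsl k hk x hx)
    refine ContinuousOn.div ?_ ?_ (fun x hx => h0 _ (hpS k hk.le x hx))
    · exact hf.comp (hpc _).continuousOn (fun x hx => hpS (k + 1) hk x hx)
    · exact hf.comp (hpc _).continuousOn (fun x hx => hpS k hk.le x hx)
  · intro x hx
    have key : ∀ m ≤ N, exp (log (f x0) + ∑ k ∈ Finset.range m, log (f (p (k + 1) x) / f (p k x)))
        = f (p m x) := by
      intro m
      induction m with
      | zero => intro _; simp [hp0, exp_log (h0 x0 hx0)]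
      | succ m ih =>
        intro hm
        rw [Finset.sum_range_succ, ← add_assoc, exp_add, ih (by omega)]
        have h1 := h0 _ (hpS m (by omega) x hx)
        have h2 := h0 _ (hpS (m + 1) hm x hx)
        rw [exp_log (div_ne_zero h2 h1)]
        field_simp
    have := key N le_rfl
    rw [hpN] at this
    exact this

theorem const_diff {S : Set E} (hS : IsPreconnected S) {g1 g2 : E → ℂ}
    (h1 : ContinuousOn g1 S) (h2 : ContinuousOn g2 S) {c : ℂ}
    (h : ∀ x ∈ S, exp (g1 x) = c * exp (g2 x)) {x y : E} (hx : x ∈ S) (hy : y ∈ S) :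
    g1 x - g2 x = g1 y - g2 y := by
  have hcc : ∀ z ∈ S, exp (g1 z - g2 z) = c := by
    intro z hz
    rw [exp_sub, h z hz]
    field_simp [exp_ne_zero]
  have hint : ∀ z ∈ S, ∃ n : ℤ, g1 z - g2 z = g1 x - g2 x + n * (2 * Real.pi * I) := by
    intro z hz
    exact exp_eq_exp_iff_exists_int.1 ((hcc z hz).trans (hcc x hx).symm)
  have hpi : (2 * Real.pi : ℝ) ≠ 0 := by positivity
  let q : E → ℝ := fun z => ((g1 z - g2 z) - (g1 x - g2 x)).im / (2 * Real.pi)
  have hq : ContinuousOn q S := by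
    apply ContinuousOn.div_const
    exact continuous_im.comp_continuousOn ((h1.sub h2).sub continuousOn_const)
  have hT : IsDiscrete (Set.range ((↑) : ℤ → ℝ)) :=
    Int.isClosedEmbedding_coe_real.isEmbedding.isDiscrete_range
  have hm : Set.MapsTo q S (Set.range ((↑) : ℤ → ℝ)) := by
    intro z hz
    obtain ⟨n, hn⟩ := hint z hz
    refine ⟨n, ?_⟩
    simp only [q]
    rw [hn]
    simp
  have hqe := hS.constant_of_mapsTo hT hq hm hx hy
  obtain ⟨n, hn⟩ := hint y hy
  have h3 : q x = 0 := by simp [q]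
  have h4 : q y = n := by
    simp only [q]
    rw [hn]
    simp
  rw [h3, h4] at hqe
  have : n = 0 := by exact_mod_cast hqe.symm
  rw [hn, this]
  simp

end Pool.Agent.V1190.DK
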