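import Pool.Agent.V1190.DK.Sys

set_option maxRecDepth 100000

namespace Pool.Agent.V1190.DK

open Filter Topology OnePoint Matrix

theorem isOpen_iso (m : ℕ) : IsOpen ({iso m} : Set XX) := by
  have : ({iso m} : Set XX) = (fun q : XX => q.1.2) ⁻¹' {(m : OnePoint ℕ)} := by
    ext q
    simp only [Set.mem_singleton_iff, Set.mem_preimage]
    constructor
    · rintro rfl; rfl
    · intro h
      rcases cases_XX q with ⟨m', rfl⟩ | ⟨w, rfl⟩
      · have : m' = m := OnePoint.coe_injective h
        rw [this]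
      · exact absurd h (OnePoint.infty_ne_coe m)
  rw [this]
  exact (isOpen_pt m).preimage (continuous_snd.comp continuous_subtype_val)

theorem tendsto_iso (a : ℕ) : Tendsto (fun b : ℕ => iso ((Nat.pair a b) ^ 2)) atTop
    (𝓝 (atInf (TopologicalSpace.denseSeq X0 a))) := by
  rw [tendsto_subtype_rng]
  have h1 : ∀ b : ℕ, (iso ((Nat.pair a b) ^ 2)).1 =
      (TopologicalSpace.denseSeq X0 a, (((Nat.pair a b) ^ 2 : ℕ) : OnePoint ℕ)) := by
    intro b
    simp only [iso]
    rw [Nat.sqrt_eq']
    simp only [vv, Nat.unpair_pair]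
  simp only [h1]
  refine Tendsto.prodMk_nhds tendsto_const_nhds ?_
  refine tendsto_coe_infty.comp ?_
  rw [coclosedCompact_eq_cocompact, cocompact_eq_cofinite, Nat.cofinite_eq_atTop]
  have h2 : Tendsto (fun b : ℕ => Nat.pair a b) atTop atTop :=
    tendsto_atTop_mono (fun b => Nat.right_le_pair a b) tendsto_id
  exact (tendsto_pow_atTop two_ne_zero).comp h2

theorem not_open_inf (w : X0) : ¬ IsOpen ({atInf w} : Set XX) := by
  intro ho
  have h1 : IsOpen ({w} : Set X0) := by
    have : ({w} : Set X0) = atInf ⁻¹' {atInf w} := by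
      ext w'
      simp only [Set.mem_singleton_iff, Set.mem_preimage]
      constructor
      · rintro rfl; rfl
      · intro h; exact atInf_inj h
    rw [this]
    exact ho.preimage atInf_cont
  obtain ⟨a, ha⟩ := (TopologicalSpace.denseRange_denseSeq X0).exists_mem_open h1 ⟨w, rfl⟩
  have ha' : TopologicalSpace.denseSeq X0 a = w := ha
  have ht := tendsto_iso a
  rw [ha'] at ht
  have := ht.eventually (ho.mem_nhds rfl)
  obtain ⟨b, hb⟩ := this.exists
  exact iso_ne_atInf _ _ hb

theorem map_iso (κ : XX ≃ₜ XX) (m : ℕ) : ∃ m', κ (iso m) = iso m' := by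
  rcases cases_XX (κ (iso m)) with h | ⟨w, hw⟩
  · exact h
  · exfalso
    apply not_open_inf w
    rw [← hw, ← Set.image_singleton]
    exact κ.isOpenMap _ (isOpen_iso m)

/-- a permutation of `ℕ` commuting with `m ↦ (√m)²` fixes all squares -/
theorem perm_sq (θ : ℕ → ℕ) (hinj : Function.Injective θ) (hsurj : Function.Surjective θ)
    (h : ∀ m, θ (gg m) = gg (θ m)) (k : ℕ) : θ (k ^ 2) = k ^ 2 := by
  have hkk : gg (k ^ 2) = k ^ 2 := by
    unfold gg; rw [Nat.sqrt_eq']
  have hl : gg (θ (k ^ 2)) = θ (k ^ 2) := by rw [← h, hkk]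
  set l := Nat.sqrt (θ (k ^ 2)) with hldef
  have hl2 : θ (k ^ 2) = l ^ 2 := by rw [← hl]; rfl
  have hfib : ∀ m, Nat.sqrt m = k ↔ Nat.sqrt (θ m) = l := by
    intro m
    constructor
    · intro hm
      have : gg m = k ^ 2 := by unfold gg; rw [hm]
      have h2 := h m
      rw [this, hl2] at h2
      have h3 : l ^ 2 = (Nat.sqrt (θ m)) ^ 2 := h2
      exact (Nat.pow_left_injective (by norm_num : (2 : ℕ) ≠ 0) h3).symm
    · intro hm
      have h2 := h m
      have h3 : gg (θ m) = l ^ 2 := by unfold gg; rw [hm]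
      rw [h3, ← hl2] at h2
      have h4 := hinj h2
      have h5 : (Nat.sqrt m) ^ 2 = k ^ 2 := h4
      exact Nat.pow_left_injective (by norm_num : (2 : ℕ) ≠ 0) h5
  have hs : ∀ m k : ℕ, m ∈ Finset.Ico (k * k) ((k + 1) * (k + 1)) ↔ Nat.sqrt m = k := by
    intro m k
    rw [Finset.mem_Ico]
    constructor
    · rintro ⟨h1, h2⟩
      have a1 := Nat.le_sqrt.2 h1
      have a2 := Nat.sqrt_lt.2 h2
      omega
    · rintro rfl
      exact ⟨Nat.sqrt_le m, Nat.lt_succ_sqrt m⟩
  have c1 : (Finset.Ico (k * k) ((k + 1) * (k + 1))).card ≤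
      (Finset.Ico (l * l) ((l + 1) * (l + 1))).card := by
    apply Finset.card_le_card_of_injOn θ
    · intro m hm
      have hm' := (hs m k).1 (Finset.mem_coe.1 hm)
      exact Finset.mem_coe.2 ((hs (θ m) l).2 ((hfib m).1 hm'))
    · exact hinj.injOn
  have c2 : (Finset.Ico (l * l) ((l + 1) * (l + 1))).card ≤
      (Finset.Ico (k * k) ((k + 1) * (k + 1))).card := by
    apply Finset.card_le_card_of_surjOn θ
    intro m hm
    have hm' := (hs m l).1 (Finset.mem_coe.1 hm)
    obtain ⟨m0, rfl⟩ := hsurj m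
    exact ⟨m0, Finset.mem_coe.2 ((hs m0 k).2 ((hfib m0).2 hm')), rfl⟩
  rw [Nat.card_Ico, Nat.card_Ico] at c1 c2
  have e1 : (k + 1) * (k + 1) - k * k = 2 * k + 1 := by
    have : (k + 1) * (k + 1) = k * k + (2 * k + 1) := by ring
    omega
  have e2 : (l + 1) * (l + 1) - l * l = 2 * l + 1 := by
    have : (l + 1) * (l + 1) = l * l + (2 * l + 1) := by ring
    omega
  rw [e1, e2] at c1 c2
  have : k = l := by omega
  rw [hl2, ← this]

theorem rigid (κ : XX ≃ₜ XX) (u : XX → Matrix (Fin 5) (Fin 5) ℂ) (hu : ∀ y, u y * (u y)ᴴ = 1)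
    (hs : ∀ y i j, u y i j ≠ 0 → SS.map j (κ y) = κ (TT.map i y)) (w : X0) :
    κ (atInf w) = atInf w := by
  choose θ hθ using map_iso κ
  choose θ' hθ' using map_iso κ.symm
  have i1 : ∀ m, θ (θ' m) = m := by
    intro m
    apply iso_inj
    rw [← hθ, ← hθ', κ.apply_symm_apply]
  have i2 : ∀ m, θ' (θ m) = m := by
    intro m
    apply iso_inj
    rw [← hθ', ← hθ, κ.symm_apply_apply]
  have hinj : Function.Injective θ := Function.LeftInverse.injective i2
  have hsurj : Function.Surjective θ := Function.RightInverse.surjective i1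
  have hcomm : ∀ m, θ (gg m) = gg (θ m) := by
    intro m
    have hrow : ∃ j, u (iso m) 0 j ≠ 0 := by
      by_contra hc
      push Not at hc
      have h1 : (u (iso m) * (u (iso m))ᴴ) 0 0 = 0 := by
        rw [Matrix.mul_apply]
        apply Finset.sum_eq_zero
        intro j _
        rw [hc j, zero_mul]
      rw [hu] at h1
      simp at h1
    obtain ⟨j, hj⟩ := hrow
    have h1 := hs _ _ _ hj
    rw [TT_zero, hmap_iso, hθ, hθ] at h1
    revert h1
    refine Fin.cases ?_ (fun j => ?_) j
    · intro h1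
      rw [SS_zero, hmap_iso] at h1
      exact (iso_inj h1).symm
    · intro h1
      rw [SS_succ] at h1
      exact absurd h1.symm (iso_ne_atInf _ _)
  have hfix := perm_sq θ hinj hsurj hcomm
  have hE : (fun w : X0 => κ (atInf w)) = atInf := by
    apply Continuous.ext_on (TopologicalSpace.denseRange_denseSeq X0)
      (κ.continuous.comp atInf_cont) atInf_cont
    rintro _ ⟨a, rfl⟩
    have t1 := tendsto_iso a
    have t2 : Tendsto (fun b : ℕ => κ (iso ((Nat.pair a b) ^ 2))) atTop
        (𝓝 (κ (atInf (TopologicalSpace.denseSeq X0 a)))) := (κ.continuous.tendsto _).comp t1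
    have t3 : (fun b : ℕ => κ (iso ((Nat.pair a b) ^ 2))) = fun b : ℕ => iso ((Nat.pair a b) ^ 2) := by
      funext b
      rw [hθ, hfix]
    rw [t3] at t2
    exact tendsto_nhds_unique t2 t1
  exact congrFun hE w

/-- the two systems are not unitarily equivalent -/
theorem not_ue : ¬ UnitarilyEquivalent SS TT := by
  intro hue
  obtain ⟨κ, u, huc, huu, hsup⟩ := extract SS TT hue
  have hrig := rigid κ u huu hsup
  let yy : KK → XX := fun x => atInf (x, fun _ => 1)
  have hyc : Continuous yy := atInf_cont.comp (continuous_id.prodMk continuous_const)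
  classical
  let v : (P → ℝ) → Matrix (Fin 4) (Fin 4) ℂ := fun x =>
    if h : x ∈ stdSimplex ℝ P then Matrix.of fun i j => u (yy ⟨x, h⟩) i.succ j.succ else 0
  have hv : ∀ (x : KK) i j, v x.1 i j = u (yy x) i.succ j.succ := by
    intro x i j
    simp only [v]
    rw [dif_pos x.2]
    rfl
  have hz : ∀ (x : KK) (i : Fin 4), u (yy x) i.succ 0 = 0 := by
    intro x i
    by_contra hne
    have h1 := hsup _ _ _ hne
    rw [hrig, SS_zero, hmap_atInf, TT_succ] at h1
    have h2 : tmap i (yy x) = atInf (x, tt i x) := rfl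
    rw [h2, hrig] at h1
    have h3 := congrArg Prod.snd (atInf_inj h1)
    have h4 := congrFun h3 (∅, ∅)
    simp only [tt, Finset.notMem_empty, if_false] at h4
    exact one_ne_zero h4
  have hgood : Good v := by
    refine ⟨?_, ?_, ?_⟩
    · intro i j
      rw [continuousOn_iff_continuous_domRestrict]
      have : (stdSimplex ℝ P).domRestrict (fun x => v x i j) = fun x : KK => u (yy x) i.succ j.succ := by
        funext x
        exact hv x i j
      rw [this]
      exact (huc _ _).comp hyc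
    · intro x hx
      ext i j
      have h1 : (u (yy ⟨x, hx⟩) * (u (yy ⟨x, hx⟩))ᴴ) i.succ j.succ =
          (1 : Matrix (Fin 5) (Fin 5) ℂ) i.succ j.succ := by rw [huu]
      rw [Matrix.mul_apply, Fin.sum_univ_succ, hz, zero_mul, zero_add] at h1
      rw [Matrix.mul_apply]
      simp only [Matrix.conjTranspose_apply] at h1 ⊢
      simp only [hv ⟨x, hx⟩]
      rw [h1]
      simp [Matrix.one_apply]
    · intro x hx I J hIJ i j hne
      rw [hv ⟨x, hx⟩] at hne
      have h1 := hsup _ _ _ hne
      rw [hrig, SS_succ, TT_succ] at h1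
      have h2 : tmap i (yy ⟨x, hx⟩) = atInf (⟨x, hx⟩, tt i ⟨x, hx⟩) := rfl
      have h3 : smap j (atInf ((⟨x, hx⟩ : KK), fun _ => 1)) = atInf (⟨x, hx⟩, ss j ⟨x, hx⟩) := rfl
      rw [h2, hrig, h3] at h1
      have h4 := congrArg Prod.snd (atInf_inj h1)
      exact st_sep ⟨x, hx⟩ i j h4 I J hIJ
  exact no_good hgood

end Pool.Agent.V1190.DK
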