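import Pool.Agent.V1190.DK.Top

set_option maxRecDepth 100000

namespace Pool.Agent.V1190.DK

open Equiv Complex Finset Matrix

variable {u : (P → ℝ) → Matrix (Fin 4) (Fin 4) ℂ}

/-- the vanishing mixed difference along a square -/
theorem square (hu : Good u) (θ : Fin 4 → Fin 4 → (P → ℝ) → ℂ)
    (hθc : ∀ i k, ContinuousOn (θ i k) (face {σ : P | σ i = k}))
    (hθ : ∀ i k, ∀ x ∈ face {σ : P | σ i = k}, exp (θ i k x) = u x i k)
    (H : (P → ℝ) → ℂ) (hHc : ContinuousOn H (stdSimplex ℝ P))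
    (hH : ∀ x ∈ stdSimplex ℝ P, exp (H x) = (u x).det)
    (F : P → ℂ) (hF : ∀ σ, F σ = H (vtx σ) - ∑ i, θ i (σ i) (vtx σ)) (ρ π : P) :
    F π - F (π * swap (ρ 0) (ρ 1)) - F (π * swap (ρ 2) (ρ 3))
      + F (π * swap (ρ 0) (ρ 1) * swap (ρ 2) (ρ 3)) = 0 := by
  have h01 : ρ 0 ≠ ρ 1 := ρ.injective.ne (by decide)
  have h23 : ρ 2 ≠ ρ 3 := ρ.injective.ne (by decide)
  have h02 : ρ 0 ≠ ρ 2 := ρ.injective.ne (by decide)
  have h03 : ρ 0 ≠ ρ 3 := ρ.injective.ne (by decide)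
  have h12 : ρ 1 ≠ ρ 2 := ρ.injective.ne (by decide)
  have h13 : ρ 1 ≠ ρ 3 := ρ.injective.ne (by decide)
  set t1 : P := swap (ρ 0) (ρ 1) with ht1
  set t2 : P := swap (ρ 2) (ρ 3) with ht2
  have t10 : t1 (ρ 0) = ρ 1 := swap_apply_left _ _
  have t11 : t1 (ρ 1) = ρ 0 := swap_apply_right _ _
  have t12 : t1 (ρ 2) = ρ 2 := swap_apply_of_ne_of_ne h02.symm h12.symm
  have t13 : t1 (ρ 3) = ρ 3 := swap_apply_of_ne_of_ne h03.symm h13.symm
  have t20 : t2 (ρ 0) = ρ 0 := swap_apply_of_ne_of_ne h02 h03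
  have t21 : t2 (ρ 1) = ρ 1 := swap_apply_of_ne_of_ne h12 h13
  have t22 : t2 (ρ 2) = ρ 3 := swap_apply_left _ _
  have t23 : t2 (ρ 3) = ρ 2 := swap_apply_right _ _
  -- the square face
  set S : Set P := {σ | ∀ i, (i = ρ 0 ∨ i = ρ 1) ↔ (σ i = π (ρ 0) ∨ σ i = π (ρ 1))} with hSdef
  have mS : ∀ σ : P, (σ (ρ 0) = π (ρ 0) ∧ σ (ρ 1) = π (ρ 1)) ∨
      (σ (ρ 0) = π (ρ 1) ∧ σ (ρ 1) = π (ρ 0)) → σ ∈ S := by
    intro σ hσ
    simp only [hSdef, Set.mem_ofPred_eq]
    intro i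
    rcases hσ with ⟨a, b⟩ | ⟨a, b⟩
    · rw [← a, ← b, σ.injective.eq_iff, σ.injective.eq_iff]
    · rw [← a, ← b, σ.injective.eq_iff, σ.injective.eq_iff]; tauto
  have zS : ∀ x ∈ face S, ∀ i j, ¬ ((i = ρ 0 ∨ i = ρ 1) ↔ (j = π (ρ 0) ∨ j = π (ρ 1))) →
      u x i j = 0 := by
    intro x hx i j hij
    by_contra hne
    have := hu.zero x hx.1 {ρ 0, ρ 1} {π (ρ 0), π (ρ 1)} (by
      intro σ hσ l
      have hs : σ ∈ S := by
        by_contra hc
        exact hσ (hx.2 σ hc)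
      simp only [Finset.mem_insert, Finset.mem_singleton]
      exact hs l) i j hne
    simp only [Finset.mem_insert, Finset.mem_singleton] at this
    exact hij this
  let N : (P → ℝ) → Matrix (Fin 4) (Fin 4) ℂ := fun x => Matrix.of fun a b => u x (ρ a) (π (ρ b))
  have hN : ∀ x a b, N x a b = u x (ρ a) (π (ρ b)) := fun _ _ _ => rfl
  have hNd : ∀ x, (N x).det = ((Perm.sign π : ℤ) : ℂ) * (u x).det := by
    intro x
    have e : N x = ((u x).submatrix id π).submatrix ρ ρ := by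
      ext a b; rfl
    rw [e, Matrix.det_submatrix_equiv_self, Matrix.det_permute']
  have hNz : ∀ x ∈ face S, ∀ a b, ¬ ((a = 0 ∨ a = 1) ↔ (b = 0 ∨ b = 1)) → N x a b = 0 := by
    intro x hx a b hab
    rw [hN]
    apply zS x hx
    simpa [ρ.injective.eq_iff, π.injective.eq_iff] using hab
  let b1 : (P → ℝ) → ℂ := fun x => N x 0 0 * N x 1 1 - N x 0 1 * N x 1 0
  let b2 : (P → ℝ) → ℂ := fun x => N x 2 2 * N x 3 3 - N x 2 3 * N x 3 2
  have hb : ∀ x ∈ face S, (u x).det = ((Perm.sign π : ℤ) : ℂ) * (b1 x * b2 x) := by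
    intro x hx
    have h := det_blk (N x) (hNz x hx _ _ (by decide)) (hNz x hx _ _ (by decide))
      (hNz x hx _ _ (by decide)) (hNz x hx _ _ (by decide)) (hNz x hx _ _ (by decide))
      (hNz x hx _ _ (by decide)) (hNz x hx _ _ (by decide)) (hNz x hx _ _ (by decide))
    rw [hNd] at h
    simp only [b1, b2]
    rw [← h, ← mul_assoc]
    rcases Int.units_eq_one_or (Perm.sign π) with h | h
    · rw [h]; simp
    · rw [h]; simp
  have hdet : ∀ x ∈ face S, (u x).det ≠ 0 := fun x hx => det_ne (hu.unit x hx.1)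
  have hNc : ∀ a b, ContinuousOn (fun x => N x a b) (face S) := fun a b =>
    (hu.cont _ _).mono (face_sub _)
  have hb1c : ContinuousOn b1 (face S) := by
    simp only [b1]
    exact ((hNc 0 0).mul (hNc 1 1)).sub ((hNc 0 1).mul (hNc 1 0))
  have hb2c : ContinuousOn b2 (face S) := by
    simp only [b2]
    exact ((hNc 2 2).mul (hNc 3 3)).sub ((hNc 2 3).mul (hNc 3 2))
  have hb1n : ∀ x ∈ face S, b1 x ≠ 0 := by
    intro x hx h0
    apply hdet x hx
    rw [hb x hx, h0]; simp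
  have hb2n : ∀ x ∈ face S, b2 x ≠ 0 := by
    intro x hx h0
    apply hdet x hx
    rw [hb x hx, h0]; simp
  have hSne : (face S).Nonempty := ⟨vtx π, vtx_mem (mS π (Or.inl ⟨rfl, rfl⟩))⟩
  obtain ⟨h1, h1c, h1e⟩ := exists_log (face_compact S) (face_convex S) hSne hb1c hb1n
  obtain ⟨h2, h2c, h2e⟩ := exists_log (face_compact S) (face_convex S) hSne hb2c hb2n
  -- the four vertices
  have mA : π ∈ S := mS π (Or.inl ⟨rfl, rfl⟩)
  have mB : π * t1 ∈ S := mS _ (Or.inr ⟨by simp [t10], by simp [t11]⟩)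
  have mC : π * t2 ∈ S := mS _ (Or.inl ⟨by simp [t20], by simp [t21]⟩)
  have mD : π * t1 * t2 ∈ S := mS _ (Or.inr ⟨by simp [t10, t20], by simp [t11, t21]⟩)
  have rel : ∀ σ ∈ S, ∀ σ' ∈ S, H (vtx σ) - (h1 (vtx σ) + h2 (vtx σ)) =
      H (vtx σ') - (h1 (vtx σ') + h2 (vtx σ')) := by
    intro σ hσ σ' hσ'
    refine const_diff (face_convex S).isPreconnected (g1 := H) (g2 := fun x => h1 x + h2 x)
      (hHc.mono (face_sub _)) (h1c.add h2c) (c := ((Perm.sign π : ℤ) : ℂ)) ?_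
      (vtx_mem hσ) (vtx_mem hσ')
    intro x hx
    rw [hH x hx.1, hb x hx, Complex.exp_add, h1e x hx, h2e x hx]
  -- edges
  have edge : ∀ (h : (P → ℝ) → ℂ) (_ : ContinuousOn h (face S)) (σ σ' : P) (_ : σ ∈ S) (_ : σ' ∈ S)
      (i j k l : Fin 4) (_ : σ i = k) (_ : σ' i = k) (_ : σ j = l) (_ : σ' j = l) (c : ℂ)
      (_ : ∀ x ∈ face ({σ, σ'} : Set P), exp (h x) = c * (u x i k * u x j l)),
      h (vtx σ) - (θ i k (vtx σ) + θ j l (vtx σ)) =
        h (vtx σ') - (θ i k (vtx σ') + θ j l (vtx σ')) := by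
    intro h hc σ σ' hσ hσ' i j k l e1 e2 e3 e4 c hx
    have s0 : face ({σ, σ'} : Set P) ⊆ face S := by
      apply face_mono
      intro τ hτ
      rcases hτ with rfl | rfl
      · exact hσ
      · exact hσ'
    have s1 : face ({σ, σ'} : Set P) ⊆ face {τ : P | τ i = k} := by
      apply face_mono
      intro τ hτ
      rcases hτ with rfl | rfl
      · exact e1
      · exact e2
    have s2 : face ({σ, σ'} : Set P) ⊆ face {τ : P | τ j = l} := by
      apply face_mono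
      intro τ hτ
      rcases hτ with rfl | rfl
      · exact e3
      · exact e4
    refine const_diff (face_convex ({σ, σ'} : Set P)).isPreconnected (g1 := h)
      (g2 := fun x => θ i k x + θ j l x)
      (hc.mono s0) (((hθc i k).mono s1).add ((hθc j l).mono s2)) (c := c) ?_
      (vtx_mem (by simp)) (vtx_mem (by simp))
    intro x hx'
    rw [hx x hx', Complex.exp_add, hθ i k x (s1 hx'), hθ j l x (s2 hx')]
  have pz : ∀ (σ σ' : P) (i k : Fin 4), σ i = k → σ' i = k → ∀ x ∈ face ({σ, σ'} : Set P),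
      ∀ j, j ≠ k → u x i j = 0 := by
    intro σ σ' i k e1 e2 x hx j hj
    have s1 : face ({σ, σ'} : Set P) ⊆ face {τ : P | τ i = k} := by
      apply face_mono
      intro τ hτ
      rcases hτ with rfl | rfl
      · exact e1
      · exact e2
    exact hu.pt (s1 hx) j hj
  have sub2 : ∀ (σ σ' : P), σ ∈ S → σ' ∈ S → face ({σ, σ'} : Set P) ⊆ face S := by
    intro σ σ' hσ hσ'
    apply face_mono
    intro τ hτ
    rcases hτ with rfl | rfl
    · exact hσ
    · exact hσ'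
  have n01 : π (ρ 0) ≠ π (ρ 1) := π.injective.ne h01
  have n23 : π (ρ 2) ≠ π (ρ 3) := π.injective.ne h23
  have eAC := edge h1 h1c π (π * t2) mA mC (ρ 0) (ρ 1) (π (ρ 0)) (π (ρ 1)) rfl (by simp [t20]) rfl
    (by simp [t21]) 1 (by
      intro x hx
      rw [h1e x (sub2 _ _ mA mC hx)]
      simp only [b1, hN]
      rw [pz π (π * t2) (ρ 0) (π (ρ 0)) rfl (by simp [t20]) x hx (π (ρ 1)) n01.symm]
      ring)
  have eBD := edge h1 h1c (π * t1) (π * t1 * t2) mB mD (ρ 0) (ρ 1) (π (ρ 1)) (π (ρ 0))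
    (by simp [t10]) (by simp [t10, t20]) (by simp [t11])
    (by simp [t11, t21]) (-1) (by
      intro x hx
      rw [h1e x (sub2 _ _ mB mD hx)]
      simp only [b1, hN]
      rw [pz (π * t1) (π * t1 * t2) (ρ 0) (π (ρ 1)) (by simp [t10]) (by simp [t10, t20]) x hx
        (π (ρ 0)) n01]
      ring)
  have eAB := edge h2 h2c π (π * t1) mA mB (ρ 2) (ρ 3) (π (ρ 2)) (π (ρ 3)) rfl (by simp [t12]) rfl
    (by simp [t13]) 1 (by
      intro x hx
      rw [h2e x (sub2 _ _ mA mB hx)]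
      simp only [b2, hN]
      rw [pz π (π * t1) (ρ 2) (π (ρ 2)) rfl (by simp [t12]) x hx (π (ρ 3)) n23.symm]
      ring)
  have eCD := edge h2 h2c (π * t2) (π * t1 * t2) mC mD (ρ 2) (ρ 3) (π (ρ 3)) (π (ρ 2))
    (by simp [t22]) (by simp [t22, t13]) (by simp [t23])
    (by simp [t23, t12]) (-1) (by
      intro x hx
      rw [h2e x (sub2 _ _ mC mD hx)]
      simp only [b2, hN]
      rw [pz (π * t2) (π * t1 * t2) (ρ 2) (π (ρ 3)) (by simp [t22]) (by simp [t22, t13]) x hx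
        (π (ρ 2)) n23]
      ring)
  have rB := rel π mA (π * t1) mB
  have rC := rel π mA (π * t2) mC
  have rD := rel π mA (π * t1 * t2) mD
  have sumF : ∀ σ : P, ∑ i, θ i (σ i) (vtx σ) = θ (ρ 0) (σ (ρ 0)) (vtx σ) +
      θ (ρ 1) (σ (ρ 1)) (vtx σ) + θ (ρ 2) (σ (ρ 2)) (vtx σ) + θ (ρ 3) (σ (ρ 3)) (vtx σ) := by
    intro σ
    rw [← Equiv.sum_comp ρ (fun i => θ i (σ i) (vtx σ)), Fin.sum_univ_four]
  rw [hF, hF, hF, hF, sumF, sumF, sumF, sumF]
  simp only [Perm.mul_apply, t10, t11, t12, t13, t20, t21, t22, t23]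
  linear_combination rB + rC - rD + eAC - eBD + eAB - eCD

/-- there is no good matrix function -/
theorem no_good (hu : Good u) : False := by
  choose θ hθc hθ using hu.theta
  obtain ⟨H, hHc, hH⟩ := hu.detlog
  let F : P → ℂ := fun σ => H (vtx σ) - ∑ i, θ i (σ i) (vtx σ)
  have hF : ∀ σ, F σ = H (vtx σ) - ∑ i, θ i (σ i) (vtx σ) := fun _ => rfl
  have hexp : ∀ σ : P, exp (F σ) = ((Perm.sign σ : ℤ) : ℂ) := by
    intro σ
    have hm : ∀ i, vtx σ ∈ face {τ : P | τ i = σ i} := fun i => vtx_mem (by simp)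
    have hs : vtx σ ∈ stdSimplex ℝ P := single_mem_stdSimplex ℝ _
    rw [hF, Complex.exp_sub, hH _ hs, Complex.exp_sum]
    rw [det_vtx (M := u (vtx σ)) (π := σ) (fun i j hj => hu.pt (hm i) j hj)]
    rw [Finset.prod_congr rfl (fun i _ => hθ i (σ i) _ (hm i))]
    have : ∏ i, u (vtx σ) i (σ i) ≠ 0 := Finset.prod_ne_zero_iff.2 fun i _ => hu.pt_ne (hm i)
    field_simp
  have hG : ∀ σ : P, ∃ n : ℤ, F σ = n * (Real.pi * I) ∧
      (n : ZMod 2) = if Perm.sign σ = 1 then 0 else 1 := by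
    intro σ
    rcases Int.units_eq_one_or (Perm.sign σ) with h | h
    · have := hexp σ
      rw [h] at this
      simp only [Units.val_one, Int.cast_one] at this
      obtain ⟨n, hn⟩ := Complex.exp_eq_one_iff.1 this
      refine ⟨2 * n, ?_, ?_⟩
      · rw [hn]; push_cast; ring
      · rw [if_pos h]; push_cast
        have : (2 : ZMod 2) = 0 := rfl
        rw [this, zero_mul]
    · have := hexp σ
      rw [h] at this
      have e1 : (((-1 : ℤˣ) : ℤ) : ℂ) = exp (Real.pi * I) := by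
        rw [Complex.exp_pi_mul_I]; simp
      rw [e1] at this
      obtain ⟨n, hn⟩ := Complex.exp_eq_exp_iff_exists_int.1 this
      refine ⟨2 * n + 1, ?_, ?_⟩
      · rw [hn]; push_cast; ring
      · rw [if_neg (by rw [h]; decide)]; push_cast
        have : (2 : ZMod 2) = 0 := rfl
        rw [this, zero_mul, zero_add]
  choose G hG1 hG2 using hG
  refine no_G G hG2 ?_
  intro ρ π
  have := square hu θ hθc hθ H hHc hH F hF ρ π
  rw [hG1, hG1, hG1, hG1] at this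
  have hpi : ((Real.pi : ℂ) * I) ≠ 0 := mul_ne_zero (by exact_mod_cast Real.pi_ne_zero) I_ne_zero
  have h2 : ((G π - G (π * swap (ρ 0) (ρ 1)) - G (π * swap (ρ 2) (ρ 3))
      + G (π * swap (ρ 0) (ρ 1) * swap (ρ 2) (ρ 3)) : ℤ) : ℂ) * (Real.pi * I) = 0 := by
    push_cast
    linear_combination this
  rcases mul_eq_zero.1 h2 with h | h
  · exact_mod_cast h
  · exact absurd h hpi

end Pool.Agent.V1190.DK
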