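import Pool.Agent.V1190.DK.Gelf
import Pool.Agent.V1190.DK.Square

set_option maxRecDepth 100000

namespace Pool.Agent.V1190.DK

open Filter Topology OnePoint

/-- index set for the coordinates: pairs of subsets of `{0,1,2,3}` -/
abbrev CC := Finset (Fin 4) × Finset (Fin 4)

/-- the simplex -/
abbrev KK := stdSimplex ℝ P

/-- the cube -/
abbrev ZZ := CC → unitInterval

abbrev X0 := KK × ZZ

/-- the functions `φ_{I,J}` on the simplex -/
noncomputable def phi (c : CC) (x : P → ℝ) : ℝ :=
  ∏ π : P, if (∀ i, i ∈ c.1 ↔ π i ∈ c.2) then 1 else max 0 (1 / 25 - x π)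

theorem phi_cont (c : CC) : Continuous (phi c) := by
  unfold phi
  apply continuous_finsetProd
  intro π _
  by_cases h : (∀ i, i ∈ c.1 ↔ π i ∈ c.2)
  · simp only [if_pos h]; exact continuous_const
  · simp only [if_neg h]; fun_prop

theorem phi_mem (c : CC) {x : P → ℝ} (hx : x ∈ stdSimplex ℝ P) : phi c x ∈ Set.Icc (0 : ℝ) 1 := by
  have h0 : ∀ π : P, 0 ≤ (if (∀ i, i ∈ c.1 ↔ π i ∈ c.2) then (1 : ℝ) else max 0 (1 / 25 - x π)) := by
    intro π; split_ifs
    · exact zero_le_one
    · exact le_max_left _ _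
  have h1 : ∀ π : P, (if (∀ i, i ∈ c.1 ↔ π i ∈ c.2) then (1 : ℝ) else max 0 (1 / 25 - x π)) ≤ 1 := by
    intro π; split_ifs
    · exact le_rfl
    · refine max_le zero_le_one ?_
      have := hx.1 π
      linarith
  exact ⟨Finset.prod_nonneg fun π _ => h0 π, Finset.prod_le_one (fun π _ => h0 π) fun π _ => h1 π⟩

theorem phi_zero (c : CC) {x : P → ℝ} {π : P} (h : ¬ ∀ i, i ∈ c.1 ↔ π i ∈ c.2)
    (hx : 1 / 25 < x π) : phi c x = 0 := by
  unfold phi
  apply Finset.prod_eq_zero (Finset.mem_univ π)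
  rw [if_neg h, max_eq_left]
  linarith

theorem phi_pos (c : CC) {x : P → ℝ} (h : ∀ π : P, x π ≠ 0 → ∀ i, (i ∈ c.1 ↔ π i ∈ c.2)) :
    0 < phi c x := by
  unfold phi
  apply Finset.prod_pos
  intro π _
  by_cases hp : (∀ i, i ∈ c.1 ↔ π i ∈ c.2)
  · rw [if_pos hp]; exact zero_lt_one
  · rw [if_neg hp]
    have : x π = 0 := by
      by_contra h0
      exact hp (h π h0)
    rw [this]
    norm_num

/-- `φ` as a point of the unit interval -/
noncomputable def phiI (c : CC) (x : KK) : unitInterval := ⟨phi c x.1, phi_mem c x.2⟩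

theorem phiI_cont (c : CC) : Continuous (phiI c) :=
  Continuous.subtype_mk ((phi_cont c).comp continuous_subtype_val) _

/-- the sheets of `σ` -/
noncomputable def ss (k : Fin 4) (x : KK) : ZZ := fun c => if k ∈ c.2 then phiI c x else 0

/-- the sheets of `τ` -/
noncomputable def tt (i : Fin 4) (x : KK) : ZZ := fun c => if i ∈ c.1 then phiI c x else 0

theorem ss_cont (k : Fin 4) : Continuous (ss k) := by
  apply continuous_pi
  intro c
  by_cases h : k ∈ c.2
  · simp only [ss, if_pos h]; exact phiI_cont c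
  · simp only [ss, if_neg h]; exact continuous_const

theorem tt_cont (k : Fin 4) : Continuous (tt k) := by
  apply continuous_pi
  intro c
  by_cases h : k ∈ c.1
  · simp only [tt, if_pos h]; exact phiI_cont c
  · simp only [tt, if_neg h]; exact continuous_const

theorem tt_eq (π : P) (x : KK) (hx : 1 / 25 < x.1 π) (i : Fin 4) : tt i x = ss (π i) x := by
  funext c
  simp only [tt, ss]
  by_cases h : ∀ i, i ∈ c.1 ↔ π i ∈ c.2
  · by_cases hi : i ∈ c.1
    · rw [if_pos hi, if_pos ((h i).1 hi)]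
    · rw [if_neg hi, if_neg (fun e => hi ((h i).2 e))]
  · have : phiI c x = 0 := by
      apply Subtype.ext
      exact phi_zero c h hx
    rw [this]
    split_ifs <;> rfl

theorem exists_big (x : KK) : ∃ π : P, 1 / 25 < x.1 π := by
  by_contra hc
  push Not at hc
  have h1 : ∑ π : P, x.1 π = 1 := x.2.2
  have h2 : ∑ π : P, x.1 π ≤ ∑ _π : P, (1 / 25 : ℝ) := Finset.sum_le_sum fun π _ => hc π
  rw [h1, Finset.sum_const, Finset.card_univ, Fintype.card_perm, Fintype.card_fin] at h2
  norm_num [Nat.factorial] at h2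

theorem st_sep (x : KK) (i j : Fin 4) (h : ss j x = tt i x) (I J : Finset (Fin 4))
    (hx : ∀ π : P, x.1 π ≠ 0 → ∀ i, (i ∈ I ↔ π i ∈ J)) : i ∈ I ↔ j ∈ J := by
  have h1 := congrFun h (I, J)
  have h2 : phiI (I, J) x ≠ 0 := by
    intro h0
    have := phi_pos (I, J) hx
    have h3 : phi (I, J) x.1 = 0 := congrArg Subtype.val h0
    linarith
  simp only [ss, tt] at h1
  constructor
  · intro hi
    by_contra hj
    rw [if_pos hi, if_neg hj] at h1
    exact h2 h1.symm
  · intro hj
    by_contra hi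
    rw [if_neg hi, if_pos hj] at h1
    exact h2 h1

instance : Nonempty X0 := ⟨(⟨vtx 1, single_mem_stdSimplex ℝ _⟩, fun _ => 0)⟩

noncomputable def vv (k : ℕ) : X0 := TopologicalSpace.denseSeq X0 (Nat.unpair k).1

/-- The space `X`. -/
abbrev XX : Type := {q : X0 × OnePoint ℕ // ∀ m : ℕ, q.2 = (m : OnePoint ℕ) → q.1 = vv (Nat.sqrt m)}

theorem isOpen_pt (m : ℕ) : IsOpen ({(m : OnePoint ℕ)} : Set (OnePoint ℕ)) := by
  have := (isOpenEmbedding_coe (X := ℕ)).isOpenMap {m} (isOpen_discrete _)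
  simpa using this

theorem XX_closed : IsClosed {q : X0 × OnePoint ℕ | ∀ m : ℕ, q.2 = (m : OnePoint ℕ) →
    q.1 = vv (Nat.sqrt m)} := by
  have : {q : X0 × OnePoint ℕ | ∀ m : ℕ, q.2 = (m : OnePoint ℕ) → q.1 = vv (Nat.sqrt m)} =
      ⋂ m : ℕ, ({q : X0 × OnePoint ℕ | q.2 ∈ ({(m : OnePoint ℕ)} : Set (OnePoint ℕ))ᶜ} ∪
        {q | q.1 = vv (Nat.sqrt m)}) := by
    ext q
    simp only [Set.mem_ofPred_eq, Set.mem_iInter, Set.mem_union, Set.mem_compl_iff,
      Set.mem_singleton_iff]
    constructor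
    · intro h m
      by_cases e : q.2 = (m : OnePoint ℕ)
      · exact Or.inr (h m e)
      · exact Or.inl e
    · intro h m e
      rcases h m with h | h
      · exact absurd e h
      · exact h
  rw [this]
  refine isClosed_iInter fun m => IsClosed.union ?_ ?_
  · exact (isOpen_pt m).isClosed_compl.preimage continuous_snd
  · exact isClosed_eq continuous_fst continuous_const

instance : CompactSpace XX := isCompact_iff_compactSpace.1 XX_closed.isCompact

end Pool.Agent.V1190.DK
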