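import Pool.Agent.V1190.DK.Space

set_option maxRecDepth 100000

namespace Pool.Agent.V1190.DK

open Filter Topology OnePoint

/-- a point at infinity -/
def atInf (w : X0) : XX := ⟨(w, ∞), fun m h => absurd h (OnePoint.infty_ne_coe m)⟩

/-- an isolated point -/
noncomputable def iso (m : ℕ) : XX := ⟨(vv (Nat.sqrt m), (m : OnePoint ℕ)), fun m' h => by
  have : m = m' := OnePoint.coe_injective h
  rw [this]⟩

theorem atInf_cont : Continuous atInf :=
  Continuous.subtype_mk (continuous_id.prodMk continuous_const) _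

theorem atInf_inj {w w' : X0} (h : atInf w = atInf w') : w = w' :=
  congrArg (fun q : XX => q.1.1) h

theorem iso_inj {m m' : ℕ} (h : iso m = iso m') : m = m' :=
  OnePoint.coe_injective (congrArg (fun q : XX => q.1.2) h)

theorem iso_ne_atInf (m : ℕ) (w : X0) : iso m ≠ atInf w := fun h =>
  absurd (congrArg (fun q : XX => q.1.2) h) (OnePoint.coe_ne_infty m)

theorem cases_XX (q : XX) : (∃ m, q = iso m) ∨ ∃ w, q = atInf w := by
  obtain ⟨⟨w, ι⟩, h⟩ := q
  induction ι using OnePoint.rec with
  | infty => exact Or.inr ⟨w, rfl⟩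
  | coe m =>
    left
    refine ⟨m, ?_⟩
    apply Subtype.ext
    have := h m rfl
    simp only at this
    simp only [iso]
    rw [this]

/-- the function `m ↦ (√m)²` -/
def gg (m : ℕ) : ℕ := (Nat.sqrt m) ^ 2

theorem sqrt_gg (m : ℕ) : Nat.sqrt (gg m) = Nat.sqrt m := Nat.sqrt_eq' _

theorem gg_cont : Continuous (OnePoint.map gg) := by
  apply OnePoint.continuous_map continuous_of_discreteTopology
  rw [coclosedCompact_eq_cocompact, cocompact_eq_cofinite, Nat.cofinite_eq_atTop]
  have : Tendsto Nat.sqrt atTop atTop := by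
    apply tendsto_atTop.2
    intro b
    filter_upwards [eventually_ge_atTop (b * b)] with m hm
    exact Nat.le_sqrt.2 hm
  exact (tendsto_pow_atTop two_ne_zero).comp this

/-- the labelling map -/
noncomputable def hmap : XX → XX := fun q => ⟨(q.1.1, OnePoint.map gg q.1.2), by
  intro m' hm'
  rcases cases_XX q with ⟨m, rfl⟩ | ⟨w, rfl⟩
  · simp only [iso] at hm' ⊢
    rw [OnePoint.map_some] at hm'
    have : gg m = m' := OnePoint.coe_injective hm'
    rw [← this, sqrt_gg]
  · simp only [atInf] at hm'
    rw [OnePoint.map_infty] at hm'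
    exact absurd hm' (OnePoint.infty_ne_coe m')⟩

theorem hmap_cont : Continuous hmap := by
  refine Continuous.subtype_mk ?_ _
  refine Continuous.prodMk ?_ ?_
  · exact continuous_fst.comp continuous_subtype_val
  · exact gg_cont.comp (continuous_snd.comp continuous_subtype_val)

theorem hmap_atInf (w : X0) : hmap (atInf w) = atInf w := rfl

theorem hmap_iso (m : ℕ) : hmap (iso m) = iso (gg m) := by
  apply Subtype.ext
  have : vv (Nat.sqrt m) = vv (Nat.sqrt (gg m)) := by rw [sqrt_gg]
  simp only [hmap, iso]
  rw [OnePoint.map_some, this]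

noncomputable def smap (k : Fin 4) : XX → XX := fun q => atInf (q.1.1.1, ss k q.1.1.1)
noncomputable def tmap (k : Fin 4) : XX → XX := fun q => atInf (q.1.1.1, tt k q.1.1.1)

theorem proj_cont : Continuous (fun q : XX => q.1.1.1) :=
  continuous_fst.comp (continuous_fst.comp continuous_subtype_val)

theorem smap_cont (k : Fin 4) : Continuous (smap k) :=
  atInf_cont.comp (proj_cont.prodMk ((ss_cont k).comp proj_cont))

theorem tmap_cont (k : Fin 4) : Continuous (tmap k) :=
  atInf_cont.comp (proj_cont.prodMk ((tt_cont k).comp proj_cont))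

/-- on a compact space every continuous map is proper -/
def toCo {X : Type*} [TopologicalSpace X] [CompactSpace X] (f : X → X) (hf : Continuous f) :
    CocompactMap X X where
  toFun := f
  continuous_toFun := hf
  cocompact_tendsto' := by
    rw [cocompact_eq_bot]
    exact tendsto_bot

/-- the first system -/
noncomputable def SS : MSystem 5 XX where
  map := Fin.cases (toCo hmap hmap_cont) (fun k => toCo (smap k) (smap_cont k))

/-- the second system -/
noncomputable def TT : MSystem 5 XX where
  map := Fin.cases (toCo hmap hmap_cont) (fun k => toCo (tmap k) (tmap_cont k))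

theorem SS_zero (q : XX) : SS.map 0 q = hmap q := rfl
theorem TT_zero (q : XX) : TT.map 0 q = hmap q := rfl
theorem SS_succ (k : Fin 4) (q : XX) : SS.map k.succ q = smap k q := rfl
theorem TT_succ (k : Fin 4) (q : XX) : TT.map k.succ q = tmap k q := rfl

theorem pc : PiecewiseConjugate SS TT := by
  refine ⟨Homeomorph.refl XX, fun Q => {q | ∃ π : P, Equiv.Perm.decomposeFin.symm (0, π) = Q ∧
    1 / 25 < q.1.1.1.1 π}, ?_, ?_, ?_⟩
  · intro Q
    have : {q : XX | ∃ π : P, Equiv.Perm.decomposeFin.symm (0, π) = Q ∧ 1 / 25 < q.1.1.1.1 π} =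
        ⋃ π : P, ⋃ (_ : Equiv.Perm.decomposeFin.symm (0, π) = Q), {q : XX | 1 / 25 < q.1.1.1.1 π} := by
      ext q; simp
    beta_reduce
    rw [this]
    refine isOpen_iUnion fun π => isOpen_iUnion fun _ => ?_
    refine isOpen_lt continuous_const ?_
    exact (continuous_apply π).comp (continuous_subtype_val.comp proj_cont)
  · apply Set.eq_univ_of_forall
    intro q
    obtain ⟨π, hπ⟩ := exists_big q.1.1.1
    exact Set.mem_iUnion.2 ⟨Equiv.Perm.decomposeFin.symm (0, π), π, rfl, hπ⟩
  · rintro Q q ⟨π, rfl, hπ⟩ i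
    refine Fin.cases ?_ (fun i => ?_) i
    · rw [Equiv.Perm.decomposeFin_symm_apply_zero]; rfl
    · rw [Equiv.Perm.decomposeFin_symm_apply_succ, Equiv.swap_self]
      simp only [Homeomorph.refl_apply, Equiv.refl_apply, id]
      rw [TT_succ, SS_succ]
      simp only [tmap, smap]
      rw [tt_eq π q.1.1.1 hπ i]

end Pool.Agent.V1190.DK
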