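import Pool.Agent.V1190.DK.Comb

set_option maxRecDepth 100000

namespace Pool.Agent.V1190.DK

open Equiv Complex Finset Matrix

/-- faces of the simplex on the vertex set `S_4` -/
def face (A : Set P) : Set (P → ℝ) := {x | x ∈ stdSimplex ℝ P ∧ ∀ π, π ∉ A → x π = 0}

theorem face_compact (A : Set P) : IsCompact (face A) := by
  have h1 : IsCompact (stdSimplex ℝ P) := isCompact_stdSimplex ℝ P
  apply h1.of_isClosed_subset _ (fun x hx => hx.1)
  have : face A = stdSimplex ℝ P ∩ ⋂ π, ⋂ (_ : π ∉ A), {x : P → ℝ | x π = 0} := by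
    ext x; simp [face]
  rw [this]
  refine h1.isClosed.inter ?_
  refine isClosed_iInter fun π => isClosed_iInter fun _ => ?_
  exact isClosed_eq (continuous_apply π) continuous_const

theorem face_convex (A : Set P) : Convex ℝ (face A) := by
  intro x hx y hy a b ha hb hab
  refine ⟨convex_stdSimplex ℝ P hx.1 hy.1 ha hb hab, ?_⟩
  intro π hπ
  simp [hx.2 π hπ, hy.2 π hπ]

/-- vertices -/
noncomputable def vtx (π : P) : P → ℝ := Pi.single π 1

theorem vtx_mem {A : Set P} {π : P} (h : π ∈ A) : vtx π ∈ face A := by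
  refine ⟨single_mem_stdSimplex ℝ π, ?_⟩
  intro σ hσ
  have : σ ≠ π := fun e => hσ (e ▸ h)
  simp [vtx, this]

theorem face_mono {A B : Set P} (h : A ⊆ B) : face A ⊆ face B := fun _ hx =>
  ⟨hx.1, fun π hπ => hx.2 π (fun c => hπ (h c))⟩

theorem face_sub (A : Set P) : face A ⊆ stdSimplex ℝ P := fun _ hx => hx.1

/-- The zero pattern condition for a unitary matrix function on the simplex. -/
structure Good (u : (P → ℝ) → Matrix (Fin 4) (Fin 4) ℂ) : Prop where
  cont : ∀ i j, ContinuousOn (fun x => u x i j) (stdSimplex ℝ P)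
  unit : ∀ x ∈ stdSimplex ℝ P, u x * (u x)ᴴ = 1
  zero : ∀ x ∈ stdSimplex ℝ P, ∀ I J : Finset (Fin 4),
    (∀ π : P, x π ≠ 0 → ∀ i, (i ∈ I ↔ π i ∈ J)) → ∀ i j, u x i j ≠ 0 → (i ∈ I ↔ j ∈ J)

theorem row_ne {M : Matrix (Fin 4) (Fin 4) ℂ} (h : M * Mᴴ = 1) {i k : Fin 4}
    (h0 : ∀ j, j ≠ k → M i j = 0) : M i k ≠ 0 := by
  intro hk
  have : (M * Mᴴ) i i = 0 := by
    rw [Matrix.mul_apply]
    apply Finset.sum_eq_zero
    intro j _
    by_cases hj : j = k
    · rw [hj, hk]; simp
    · rw [h0 j hj]; simp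
  rw [h] at this
  simp at this

theorem det_blk (N : Matrix (Fin 4) (Fin 4) ℂ) (h02 : N 0 2 = 0) (h03 : N 0 3 = 0)
    (h12 : N 1 2 = 0) (h13 : N 1 3 = 0) (h20 : N 2 0 = 0) (h21 : N 2 1 = 0) (h30 : N 3 0 = 0)
    (h31 : N 3 1 = 0) :
    N.det = (N 0 0 * N 1 1 - N 0 1 * N 1 0) * (N 2 2 * N 3 3 - N 2 3 * N 3 2) := by
  rw [Matrix.det_succ_row_zero]
  simp only [Fin.sum_univ_four, Matrix.det_fin_three, Matrix.submatrix_apply, Fin.succAbove]
  simp [Fin.lt_def, h02, h03, h12, h13, h20, h21, h30, h31, Fin.succ]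
  ring

theorem det_ne {M : Matrix (Fin 4) (Fin 4) ℂ} (h : M * Mᴴ = 1) : M.det ≠ 0 := by
  intro h0
  have : (M * Mᴴ).det = 1 := by rw [h, Matrix.det_one]
  rw [Matrix.det_mul, h0, zero_mul] at this
  exact zero_ne_one this

theorem det_vtx {M : Matrix (Fin 4) (Fin 4) ℂ} {π : P} (h0 : ∀ i j, j ≠ π i → M i j = 0) :
    M.det = ((Perm.sign π : ℤ) : ℂ) * ∏ i, M i (π i) := by
  rw [← Matrix.det_transpose, Matrix.det_apply']
  rw [Finset.sum_eq_single π]
  · simp [Matrix.transpose_apply]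
  · intro σ _ hσ
    have : ∃ i, σ i ≠ π i := by
      by_contra hc
      push Not at hc
      exact hσ (Equiv.ext hc)
    obtain ⟨i, hi⟩ := this
    rw [Finset.prod_eq_zero (Finset.mem_univ i)]
    · simp
    · simp only [Matrix.transpose_apply]
      exact h0 i _ hi
  · intro h; exact absurd (Finset.mem_univ _) h

variable {u : (P → ℝ) → Matrix (Fin 4) (Fin 4) ℂ}

theorem Good.pt (hu : Good u) {i k : Fin 4} {x : P → ℝ} (hx : x ∈ face {σ : P | σ i = k}) :
    ∀ j, j ≠ k → u x i j = 0 := by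
  intro j hj
  by_contra hne
  have := hu.zero x hx.1 {i} {k} (by
    intro σ hσ l
    have hs : σ i = k := by
      by_contra hc
      exact hσ (hx.2 σ hc)
    simp only [Finset.mem_singleton]
    constructor
    · intro e; rw [e]; exact hs
    · intro e; rw [← hs] at e; exact σ.injective e) i j hne
  simp only [Finset.mem_singleton, true_iff] at this
  exact hj this

theorem Good.pt_ne (hu : Good u) {i k : Fin 4} {x : P → ℝ} (hx : x ∈ face {σ : P | σ i = k}) :
    u x i k ≠ 0 := row_ne (hu.unit x hx.1) (hu.pt hx)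

theorem Good.pt' (hu : Good u) {i k : Fin 4} {x : P → ℝ} (hx : x ∈ face {σ : P | σ i = k}) :
    ∀ l, l ≠ i → u x l k = 0 := by
  intro l hl
  by_contra hne
  have := hu.zero x hx.1 {i} {k} (by
    intro σ hσ l
    have hs : σ i = k := by
      by_contra hc
      exact hσ (hx.2 σ hc)
    simp only [Finset.mem_singleton]
    constructor
    · intro e; rw [e]; exact hs
    · intro e; rw [← hs] at e; exact σ.injective e) l k hne
  simp only [Finset.mem_singleton, iff_true] at this
  exact hl this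

theorem Good.theta (hu : Good u) (i k : Fin 4) : ∃ g : (P → ℝ) → ℂ,
    ContinuousOn g (face {σ : P | σ i = k}) ∧ ∀ x ∈ face {σ : P | σ i = k}, exp (g x) = u x i k := by
  apply exists_log (face_compact _) (face_convex _)
  · exact ⟨vtx (swap i k), vtx_mem (by simp)⟩
  · exact (hu.cont i k).mono (face_sub _)
  · intro x hx
    exact hu.pt_ne hx

theorem Good.detlog (hu : Good u) : ∃ g : (P → ℝ) → ℂ,
    ContinuousOn g (stdSimplex ℝ P) ∧ ∀ x ∈ stdSimplex ℝ P, exp (g x) = (u x).det := by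
  apply exists_log (isCompact_stdSimplex ℝ P) (convex_stdSimplex ℝ P)
  · exact ⟨vtx 1, single_mem_stdSimplex ℝ _⟩
  · simp only [Matrix.det_apply']
    refine continuousOn_finsetSum _ fun σ _ => ?_
    refine continuousOn_const.mul ?_
    exact continuousOn_finsetProd _ fun i _ => hu.cont _ _
  · intro x hx
    exact det_ne (hu.unit x hx)

end Pool.Agent.V1190.DK
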